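import Pool.Agent.helper58.FI4E.Spec

/-! # Row fi4e:TOE (MP_baa4d7_al): the toggle, equivariant form -/

set_option autoImplicit false

namespace Pool.Agent.FI4E

open Pool.Agent.helper58.DC Pool.Agent.DI Pool.Agent.GR Pool.Agent.OB Pool.Agent.DR Pool.Agent.FI Pool.Agent.FI3 Pool.Agent.FI4 Pool.Agent.FI4I

theorem TOE_fm {A : Type} [Fintype A] (s : Set A) [DecidablePred (· ∈ s)] (f : A → ℂ) :
    ∑ᶠ a ∈ s, f a = ∑ a, if a ∈ s then f a else 0 := by
  rw [finsum_mem_eq_finite_toFinset_sum _ (Set.toFinite s), ← Finset.sum_filter]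
  refine Finset.sum_congr ?_ fun _ _ => rfl
  ext a
  simp

theorem TOE_fa {A : Type} [Fintype A] (f : A → ℂ) : ∑ᶠ a, f a = ∑ a, f a := finsum_eq_sum_of_fintype f

theorem TOE (hTGP : TGP_stmt) (hCTG : CTG_stmt) (hBAA : BAA_stmt) : TOE_stmt := by
  classical
  intro p M hM G _ _ D x θ χ hRt R hR hRD hne α hα
  haveI : Fact p.Prime := ⟨hM.pr⟩
  haveI : Fintype G := Fintype.ofFinite G
  haveI : Fintype (Finset (Subgroup G)) := Fintype.ofFinite _
  have hRn : nz R = ⊤ := top_le_iff.1 hR.1.2.2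
  -- one pair `(g, h)`
  have hsub : ∀ g h : G, am (al α g) (cjS h D) = cjS h D →
      ∑ᶠ C ∈ {C : Finset (Subgroup G) | (NCh p ⊤ R C ∧ C ≠ {R}) ∧ FxC (al α g) C ∧ ∀ Q ∈ C, Q ≤ cjS h D},
        (-1 : ℂ) ^ (C.card + 1) * tL p M χ (nrm C ⊓ nz (cjS h D)) (al α g) =
      - tL p M χ (nz (cjS h D)) (al α g) := by
    intro g h hgh
    have hcom : ∀ c ∈ cjS h D, ∀ d ∈ cjS h D, c * d = d * c := by
      intro c hc d hd
      rw [mem_cjS] at hc hd
      have h1 := hRt.com _ hc _ hd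
      have h2 : h * (h⁻¹ * c * h * (h⁻¹ * d * h)) * h⁻¹ = h * (h⁻¹ * d * h * (h⁻¹ * c * h)) * h⁻¹ := by
        rw [h1]
      have h3 : h * (h⁻¹ * c * h * (h⁻¹ * d * h)) * h⁻¹ = c * d := by group
      have h4 : h * (h⁻¹ * d * h * (h⁻¹ * c * h)) * h⁻¹ = d * c := by group
      rw [h3, h4] at h2
      exact h2
    have hpg : IsPGroup p (cjS h D) := hRt.dfa.pgrp.map _
    have hcard : Nat.card (cjS h D) = Nat.card D :=
      ((hBAA G M p (MulAut.conj h) D D D χ χ χ).1).2.2.2.2.1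
    have hRle : R ≤ cjS h D := by
      intro y hy
      rw [mem_cjS]
      apply hRD
      have h1 : h⁻¹ ∈ nz R := by rw [hRn]; trivial
      rw [Subgroup.mem_normalizer_iff] at h1
      have h2 := (h1 y).1 hy
      rw [inv_inv] at h2
      exact h2
    have hRne : R ≠ cjS h D := by
      intro e
      apply hne
      apply Subgroup.eq_of_le_of_card_ge hRD
      rw [← hcard, ← e]
    have hlt : R < cjS h D := lt_of_le_of_ne hRle hRne
    have hRa : am (al α g) R = R :=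
      ((hBAA G M p (al α g) R R R χ χ χ).1).2.2.2.2.2.2.2.2 hR
    exact hTGP G p (cjS h D) R (al α g) hpg hcom hlt hRn hgh hRa (fun K => tL p M χ K (al α g))
  have hC := hCTG p M G D χ hRt.chi α hα
  -- both sides as finite sums
  have e1 : ∑ᶠ C ∈ {C : Finset (Subgroup G) | NCh p ⊤ R C ∧ C ≠ {R}}, (-1 : ℂ) ^ (C.card + 1) *
      ∑ᶠ g ∈ {g : G | FxC (al α g) C},
        ∑ᶠ h ∈ {h : G | (∀ Q ∈ C, Q ≤ cjS h D) ∧ am (al α g) (cjS h D) = cjS h D},
          tL p M χ (nrm C ⊓ nz (cjS h D)) (al α g) =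
      ∑ C : Finset (Subgroup G), ∑ g : G, ∑ h : G,
        if (NCh p ⊤ R C ∧ C ≠ {R}) ∧ FxC (al α g) C ∧ (∀ Q ∈ C, Q ≤ cjS h D) ∧
          am (al α g) (cjS h D) = cjS h D then
          (-1 : ℂ) ^ (C.card + 1) * tL p M χ (nrm C ⊓ nz (cjS h D)) (al α g) else 0 := by
    rw [TOE_fm]
    refine Finset.sum_congr rfl fun C _ => ?_
    by_cases h1 : NCh p ⊤ R C ∧ C ≠ {R}
    · rw [if_pos (show C ∈ {C : Finset (Subgroup G) | NCh p ⊤ R C ∧ C ≠ {R}} from h1), TOE_fm,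
        Finset.mul_sum]
      refine Finset.sum_congr rfl fun g _ => ?_
      by_cases h2 : FxC (al α g) C
      · rw [if_pos (show g ∈ {g : G | FxC (al α g) C} from h2), TOE_fm, Finset.mul_sum]
        refine Finset.sum_congr rfl fun h _ => ?_
        by_cases h3 : (∀ Q ∈ C, Q ≤ cjS h D) ∧ am (al α g) (cjS h D) = cjS h D
        · rw [if_pos (show h ∈ {h : G | (∀ Q ∈ C, Q ≤ cjS h D) ∧
            am (al α g) (cjS h D) = cjS h D} from h3), if_pos ⟨h1, h2, h3⟩]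
        · rw [if_neg (show ¬ h ∈ {h : G | (∀ Q ∈ C, Q ≤ cjS h D) ∧
            am (al α g) (cjS h D) = cjS h D} from h3), if_neg fun hh => h3 hh.2.2, mul_zero]
      · rw [if_neg (show ¬ g ∈ {g : G | FxC (al α g) C} from h2), mul_zero]
        exact (Finset.sum_eq_zero fun h _ => if_neg fun hh => h2 hh.2.1).symm
    · rw [if_neg (show ¬ C ∈ {C : Finset (Subgroup G) | NCh p ⊤ R C ∧ C ≠ {R}} from h1)]
      exact (Finset.sum_eq_zero fun g _ => Finset.sum_eq_zero fun h _ =>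
        if_neg fun hh => h1 hh.1).symm
  have e2 : ∑ᶠ g : G, ∑ᶠ h ∈ {h : G | am (al α g) (cjS h D) = cjS h D},
      tL p M χ (nz (cjS h D)) (al α g) = ∑ g : G, ∑ h : G,
        if am (al α g) (cjS h D) = cjS h D then tL p M χ (nz (cjS h D)) (al α g) else 0 := by
    rw [TOE_fa]
    exact Finset.sum_congr rfl fun g _ => TOE_fm _ _
  rw [e1, ← hC, e2, Finset.sum_comm, ← Finset.sum_neg_distrib]
  refine Finset.sum_congr rfl fun g _ => ?_
  rw [Finset.sum_comm, ← Finset.sum_neg_distrib]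
  refine Finset.sum_congr rfl fun h _ => ?_
  by_cases h3 : am (al α g) (cjS h D) = cjS h D
  · rw [if_pos h3, ← hsub g h h3, TOE_fm]
    refine Finset.sum_congr rfl fun C _ => ?_
    by_cases h4 : (NCh p ⊤ R C ∧ C ≠ {R}) ∧ FxC (al α g) C ∧ ∀ Q ∈ C, Q ≤ cjS h D
    · rw [if_pos ⟨h4.1, h4.2.1, h4.2.2, h3⟩,
        if_pos (show C ∈ {C : Finset (Subgroup G) | (NCh p ⊤ R C ∧ C ≠ {R}) ∧ FxC (al α g) C ∧
          ∀ Q ∈ C, Q ≤ cjS h D} from h4)]
    · rw [if_neg fun hh => h4 ⟨hh.1, hh.2.1, hh.2.2.1⟩,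
        if_neg (show ¬ C ∈ {C : Finset (Subgroup G) | (NCh p ⊤ R C ∧ C ≠ {R}) ∧ FxC (al α g) C ∧
          ∀ Q ∈ C, Q ≤ cjS h D} from h4)]
  · rw [if_neg h3, neg_zero]
    exact Finset.sum_eq_zero fun C _ => if_neg fun hh => h3 hh.2.2.2

end Pool.Agent.FI4E
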